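import Pool.Agent.W120.MD.Lat

/-!
# MD-FLOWP: from functions of compact support to periodic functions
-/

set_option autoImplicit false

open MeasureTheory Set Metric
open scoped ENNReal NNReal

namespace Pool.Agent.W120.MD

open H459R3.NS W221.NS

theorem mp_of {Y : V → V} (hY : Continuous Y)
    (hint : ∀ f : V → ℝ, Continuous f → HasCompactSupport f → (∀ x, 0 ≤ f x) →
      ∫ x, f (Y x) = ∫ x, f x) : MeasurePreserving Y volume volume := by
  have hfin : IsFiniteMeasureOnCompacts (Measure.map Y (volume : Measure V)) := by
    constructor
    intro K hK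
    rw [Measure.map_apply hY.measurable hK.measurableSet]
    obtain ⟨R, hR⟩ := hK.isBounded.subset_closedBall (0 : V)
    let f : V → ℝ := fun x => max 0 (|R| + 1 - ‖x‖)
    have hfc : Continuous f := continuous_const.max (continuous_const.sub continuous_norm)
    have hf0 : ∀ x, 0 ≤ f x := fun x => le_max_left _ _
    have hfs : HasCompactSupport f := by
      apply HasCompactSupport.of_support_subset_isCompact (isCompact_closedBall (0 : V) (|R| + 1))
      intro x hx
      rw [mem_closedBall_zero_iff]
      by_contra h
      apply hx
      exact max_eq_left (by linarith)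
    have hfi : Integrable f := hfc.integrable_of_hasCompactSupport hfs
    have hpos : 0 < ∫ x, f x := by
      rw [integral_pos_iff_support_of_nonneg hf0 hfi]
      refine lt_of_lt_of_le (measure_ball_pos volume (0 : V) one_pos) (measure_mono ?_)
      intro x hx
      rw [mem_ball_zero_iff] at hx
      rw [Function.mem_support]
      have : 0 < |R| + 1 - ‖x‖ := by
        have := abs_nonneg R
        linarith
      exact (lt_of_lt_of_le this (le_max_right _ _)).ne'
    have hfY : Integrable (fun x => f (Y x)) := by
      by_contra h
      have := hint f hfc hfs hf0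
      rw [integral_undef h] at this
      exact hpos.ne this
    refine lt_of_le_of_lt (measure_mono ?_) (hfY.measure_ge_lt_top one_pos)
    intro x hx
    have h1 : Y x ∈ closedBall (0 : V) R := hR hx
    rw [mem_closedBall_zero_iff] at h1
    show (1 : ℝ) ≤ max 0 (|R| + 1 - ‖Y x‖)
    refine le_trans ?_ (le_max_right _ _)
    have := le_abs_self R
    linarith
  refine ⟨hY.measurable, ?_⟩
  apply Measure.ext_of_integral_eq_on_compactlySupported_nnreal
  intro f
  have hfc : Continuous fun x => (f x : ℝ) := NNReal.continuous_coe.comp f.continuous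
  have hfs : HasCompactSupport fun x => (f x : ℝ) :=
    f.hasCompactSupport.comp_left (g := fun y : ℝ≥0 => (y : ℝ)) rfl
  rw [integral_map hY.aemeasurable hfc.aestronglyMeasurable]
  exact hint _ hfc hfs fun x => NNReal.coe_nonneg _

theorem t_FLOWP : S_FLOWP := by
  intro Y hY hper hint f hf hfp
  have hmp := mp_of hY hint
  have hYk : ∀ (g : Gm) (x : V), Y (g +ᵥ x) = g +ᵥ Y x := by
    intro g x
    have h1 : Per (fun x => Y x - x) := by
      intro i x
      show Y (x + Pi.single i 1) - (x + Pi.single i 1) = Y x - x
      rw [hper]
      abel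
    have h2 := per_vadd h1 g x
    simp only [vadd_eq] at h2 ⊢
    have h3 : Y ((g : V) + x) = Y x - x + ((g : V) + x) := by rw [← h2]; abel
    rw [h3]
    abel
  have fd' : IsAddFundamentalDomain Gm (Y ⁻¹' DD) (volume : Measure V) :=
    fd.preimage_of_equiv hmp.quasiMeasurePreserving (e := id) Function.bijective_id
      (fun g x => hYk g x)
  rw [setIntegral_DD, setIntegral_DD]
  have h1 : ∀ (g : Gm) (x : V), f (Y (g +ᵥ x)) = f (Y x) := by
    intro g x
    rw [hYk, per_vadd hfp]
  rw [fd.setIntegral_eq fd' h1]
  have h2 := setIntegral_map (μ := (volume : Measure V)) (g := Y) (f := f) DD_meas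
    hf.aestronglyMeasurable hY.aemeasurable
  rw [← h2, hmp.map_eq]

end Pool.Agent.W120.MD
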