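import Pool.Agent.W221.NS.Stm
import Pool.Agent.H459R3.NS.Four

/-!
# The lattice of integral vectors and its fundamental domain
-/

set_option autoImplicit false

open MeasureTheory Set Metric
open scoped ENNReal

namespace Pool.Agent.W120.MD

open H459R3.NS W221.NS

/-- the lattice -/
abbrev Gm : AddSubgroup V :=
  (Submodule.span ℤ (Set.range (Pi.basisFun ℝ (Fin 3)))).toAddSubgroup

/-- the fundamental domain -/
def DD : Set V := ZSpan.fundamentalDomain (Pi.basisFun ℝ (Fin 3))

theorem fd : IsAddFundamentalDomain Gm DD (volume : Measure V) :=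
  ZSpan.isAddFundamentalDomain' _ _

instance : Countable Gm :=
  inferInstanceAs (Countable (Submodule.span ℤ (Set.range (Pi.basisFun ℝ (Fin 3)))))

theorem DD_meas : MeasurableSet DD := ZSpan.fundamentalDomain_measurableSet _

theorem DD_ae : DD =ᵐ[volume] cube := by
  rw [DD, ZSpan.fundamentalDomain_pi_basisFun]
  exact Measure.univ_pi_Ico_ae_eq_Icc (μ := fun _ : Fin 3 => (volume : Measure ℝ))
    (f := (0 : V)) (g := (1 : V))

theorem mem_Gm {g : V} : g ∈ Gm ↔ ∃ k : K3, g = fun i => (k i : ℝ) := by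
  show g ∈ Submodule.span ℤ (Set.range (Pi.basisFun ℝ (Fin 3))) ↔ _
  rw [Module.Basis.mem_span_iff_repr_mem]
  constructor
  · intro h
    choose k hk using h
    refine ⟨k, ?_⟩
    funext i
    have := hk i
    simp only [Pi.basisFun_repr, algebraMap_int_eq, Int.coe_castRingHom] at this
    exact this.symm
  · rintro ⟨k, rfl⟩ i
    exact ⟨k i, by simp⟩

theorem vadd_eq (g : Gm) (x : V) : g +ᵥ x = (g : V) + x := rfl

theorem per_vadd {F : Type*} {f : V → F} (hf : Per f) (g : Gm) (x : V) : f (g +ᵥ x) = f x := by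
  obtain ⟨k, hk⟩ := mem_Gm.1 g.2
  rw [vadd_eq, hk, add_comm]
  exact Per.int hf k x

theorem setIntegral_DD {E : Type*} [NormedAddCommGroup E] [NormedSpace ℝ E] (f : V → E) :
    ∫ x in cube, f x = ∫ x in DD, f x := by
  rw [Measure.restrict_congr_set DD_ae]

end Pool.Agent.W120.MD
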