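import Pool.Agent.W120.MD.SLICE

/-!
# MD-MARK: Fubini along the flow
-/

set_option autoImplicit false

open MeasureTheory Set Metric Filter Topology
open scoped ContDiff

namespace Pool.Agent.W120.MD

open H459R3.NS W221.NS

theorem cont_param {X W : Type*} [TopologicalSpace X] [FirstCountableTopology X]
    [LocallyCompactSpace X] [TopologicalSpace W] [MeasurableSpace W] [BorelSpace W]
    {μ : Measure W} [IsFiniteMeasureOnCompacts μ] {O : Set X} (hO : IsOpen O) {B K : Set W}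
    (hB : MeasurableSet B) (hBK : B ⊆ K) (hK : IsCompact K) {F : X → W → ℝ}
    (hF : ContinuousOn (fun z : X × W => F z.1 z.2) (O ×ˢ K)) :
    ContinuousOn (fun x => ∫ w in B, F x w ∂μ) O := by
  intro x0 hx0
  obtain ⟨L, hL, hLO, hLc⟩ := local_compact_nhds (hO.mem_nhds hx0)
  obtain ⟨C, hC⟩ := (hLc.prod hK).exists_bound_of_continuousOn
    (hF.mono (prod_mono hLO subset_rfl))
  have hBfin : μ B < ⊤ := lt_of_le_of_lt (measure_mono hBK) hK.measure_lt_top
  haveI : IsFiniteMeasure (μ.restrict B) := ⟨by rw [Measure.restrict_apply_univ]; exact hBfin⟩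
  apply ContinuousAt.continuousWithinAt
  apply continuousAt_of_dominated (bound := fun _ => C)
  · filter_upwards [hL] with x hx
    have h1 : ContinuousOn (F x) B := by
      have h2 : ContinuousOn (fun w : W => (x, w)) B := by fun_prop
      exact hF.comp h2 (fun w hw => ⟨hLO hx, hBK hw⟩)
    exact h1.aestronglyMeasurable hB
  · filter_upwards [hL] with x hx
    refine (ae_restrict_iff' hB).2 (Filter.Eventually.of_forall fun w hw => ?_)
    exact hC (x, w) ⟨hx, hBK hw⟩
  · exact integrable_const _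
  · refine (ae_restrict_iff' hB).2 (Filter.Eventually.of_forall fun w hw => ?_)
    have h1 : ContinuousWithinAt (fun z : X × W => F z.1 z.2) (O ×ˢ K) (x0, w) :=
      hF (x0, w) ⟨hx0, hBK hw⟩
    have h2 : ContinuousWithinAt (fun x => F x w) O x0 :=
      h1.comp (t := O ×ˢ K) (f := fun x : X => ((x, w) : X × W)) (by fun_prop)
        (fun x hx => ⟨hx, hBK hw⟩)
    exact h2.continuousAt (hO.mem_nhds hx0)

section sol
variable {ν T : ℝ} {u : ℝ → V → V} {p : ℝ → V → ℝ}

theorem gsq_cont (h : IsSol ν T u p) :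
    ContinuousOn (fun z : ℝ × V => gsq (u z.1) z.2) (Ioo 0 T ×ˢ univ) := by
  unfold gsq
  refine continuousOn_finsetSum _ fun i _ => continuousOn_finsetSum _ fun j _ => ?_
  exact (((contDiffOn_pd (f := fun s y => u s y i) (h.smooth_c i) j).continuousOn).mono
    (prod_mono Ioo_subset_Ico_self subset_rfl)).pow 2

theorem avg_eq (v : V → V) (x : V) (ρ : ℝ) :
    avg v x ρ = (∫ w in ball (0 : V) ρ, gsq v (x + w)) / (2 * ρ) ^ 3 := by
  unfold avg
  congr 1
  have h1 := (measurePreserving_add_left (volume : Measure V) x).setIntegral_preimage_emb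
    (measurableEmbedding_addLeft x) (gsq v) (ball x ρ)
  rw [← h1]
  have h2 : (fun w : V => x + w) ⁻¹' ball x ρ = ball (0 : V) ρ := by
    ext w
    simp [mem_ball, dist_eq_norm]
  rw [h2]

theorem comp_aux (g : ℝ × V → ℝ) (hg : ContinuousOn g (Ioo 0 T ×ˢ univ)) (ρ : ℝ) :
    ContinuousOn (fun z : (ℝ × V) × V => g (z.1.1, z.1.2 + z.2))
      ((Ioo 0 T ×ˢ univ) ×ˢ closedBall (0 : V) ρ) := by
  have h1 : ContinuousOn (fun z : (ℝ × V) × V => ((z.1.1, z.1.2 + z.2) : ℝ × V))
      ((Ioo 0 T ×ˢ univ) ×ˢ closedBall (0 : V) ρ) := by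
    apply Continuous.continuousOn
    exact (continuous_fst.comp continuous_fst).prodMk
      ((continuous_snd.comp continuous_fst).add continuous_snd)
  have h2 : MapsTo (fun z : (ℝ × V) × V => ((z.1.1, z.1.2 + z.2) : ℝ × V))
      ((Ioo 0 T ×ˢ univ) ×ˢ closedBall (0 : V) ρ) (Ioo 0 T ×ˢ univ) := by
    intro z hz
    exact ⟨hz.1.1, mem_univ _⟩
  exact hg.comp h1 h2

attribute [local irreducible] gsq

theorem gsq_cont2 (h : IsSol ν T u p) (ρ : ℝ) :
    ContinuousOn (fun z : (ℝ × V) × V => gsq (u z.1.1) (z.1.2 + z.2))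
      ((Ioo 0 T ×ˢ univ) ×ˢ closedBall (0 : V) ρ) := by
  have := comp_aux (T := T) (fun z => gsq (u z.1) z.2) (gsq_cont h) ρ
  exact this

theorem avg_cont (h : IsSol ν T u p) (ρ : ℝ) :
    ContinuousOn (fun z : ℝ × V => avg (u z.1) z.2 ρ) (Ioo 0 T ×ˢ univ) := by
  have h1 := cont_param (X := ℝ × V) (W := V) (μ := volume) (O := Ioo 0 T ×ˢ univ)
    (isOpen_Ioo.prod isOpen_univ) (B := ball (0 : V) ρ) (K := closedBall (0 : V) ρ)
    measurableSet_ball ball_subset_closedBall (isCompact_closedBall (0 : V) ρ)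
    (F := fun (z : ℝ × V) (w : V) => gsq (u z.1) (z.2 + w)) (gsq_cont2 h ρ)
  have h2 := h1.div_const ((2 * ρ) ^ 3)
  refine h2.congr fun z _ => ?_
  exact avg_eq _ _ _

theorem FF_cont (h : IsSol ν T u p) (m : ℕ) :
    ContinuousOn (fun z : ℝ × V => FF m (u z.1) z.2) (Ioo 0 T ×ˢ univ) := by
  unfold FF
  apply ContinuousOn.div_const
  apply ContinuousOn.add
  · exact continuousOn_finsetSum _ fun k _ => avg_cont h _
  · have h1 : ContinuousOn (fun z : ℝ × V => z.1) (Ioo 0 T ×ˢ univ) := by fun_prop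
    have h2 : MapsTo (fun z : ℝ × V => z.1) (Ioo 0 T ×ˢ univ) (Ioo 0 T) := fun z hz => hz.1
    exact (h.enstrophy_continuousOn.mono Ioo_subset_Ico_self).comp h1 h2

theorem spv (h : IsSol ν T u p) {t : ℝ} (ht : t ∈ Ico 0 T) : SPV (u t) :=
  ⟨slice_smooth h.smooth_u ht, h.per_u t ht⟩

end sol

theorem FF_per (hA : S_AVG) {v : V → V} (hv : SPV v) (m : ℕ) : Per (fun x => FF m v x) := by
  intro i x
  have h1 : ∀ k : ℕ, avg v (x + Pi.single i 1) (2 ^ k / 2 ^ m) = avg v x (2 ^ k / 2 ^ m) :=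
    fun k => (hA v hv (2 ^ k / 2 ^ m) (by positivity)).2.1 i x
  show FF m v (x + Pi.single i 1) = FF m v x
  unfold FF
  simp only [h1]

theorem FF_int (hA : S_AVG) {v : V → V} (hv : SPV v) (m : ℕ) :
    ∫ x in cube, FF m v x = (m + 1) / 16 ^ m * enstrophy v := by
  unfold FF
  rw [integral_div]
  haveI := cube_finite
  have hint : ∀ k : ℕ, Integrable (fun x => avg v x (2 ^ k / 2 ^ m)) (volume.restrict cube) :=
    fun k => integrableOn_cube (hA v hv _ (by positivity)).1
  rw [integral_add (integrable_finset_sum _ fun k _ => hint k) (integrable_const _),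
    integral_finset_sum _ (fun k _ => hint k), setIntegral_const, measureReal_def, volume_cube]
  have h1 : ∀ k ∈ Finset.range m, ∫ x in cube, avg v x (2 ^ k / 2 ^ m) = enstrophy v :=
    fun k _ => (hA v hv _ (by positivity)).2.2
  rw [Finset.sum_congr rfl h1]
  simp
  ring

attribute [local irreducible] FF enstrophy

section main
variable {T : ℝ} {u : ℝ → V → V} {p : ℝ → V → ℝ} {U : ℝ → V → V} {r s : ℝ} {X : ℝ → V → V}

theorem time_mem (hr : 0 < r) {t : ℝ} (ht : t ∈ Icc (-1 : ℝ) 0) :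
    s + r ^ 2 * t ∈ Icc (s - r ^ 2) s := by
  have hr2 : 0 < r ^ 2 := by positivity
  constructor
  · nlinarith [ht.1]
  · nlinarith [ht.2]

theorem joint (h : IsSol 1 T u p) (m : ℕ) (hr : 0 < r) (hs : r ^ 2 < s) (hsT : s < T)
    (hX : Flow U (s - r ^ 2) s X) :
    ContinuousOn (fun z : V × ℝ => FF m (u (s + r ^ 2 * z.2)) (X (s + r ^ 2 * z.2) z.1))
      (univ ×ˢ Icc (-1) 0) := by
  have h1 : ContinuousOn (fun z : V × ℝ => ((s + r ^ 2 * z.2, z.1) : ℝ × V))
      (univ ×ˢ Icc (-1) 0) := by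
    apply Continuous.continuousOn
    exact (continuous_const.add (continuous_const.mul continuous_snd)).prodMk continuous_fst
  have h1' : MapsTo (fun z : V × ℝ => ((s + r ^ 2 * z.2, z.1) : ℝ × V))
      (univ ×ˢ Icc (-1) 0) (Icc (s - r ^ 2) s ×ˢ univ) :=
    fun z hz => ⟨time_mem hr hz.2, mem_univ _⟩
  have h2 : ContinuousOn (fun z : V × ℝ => X (s + r ^ 2 * z.2) z.1) (univ ×ˢ Icc (-1) 0) :=
    hX.cont.comp h1 h1'
  have h3 : ContinuousOn (fun z : V × ℝ => ((s + r ^ 2 * z.2, X (s + r ^ 2 * z.2) z.1) : ℝ × V))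
      (univ ×ˢ Icc (-1) 0) :=
    ContinuousOn.prodMk (continuous_const.add
      (continuous_const.mul continuous_snd)).continuousOn h2
  have h3' : MapsTo (fun z : V × ℝ => ((s + r ^ 2 * z.2, X (s + r ^ 2 * z.2) z.1) : ℝ × V))
      (univ ×ˢ Icc (-1) 0) (Ioo 0 T ×ˢ univ) := by
    intro z hz
    have := time_mem (s := s) hr hz.2
    exact ⟨⟨by linarith [this.1], by linarith [this.2]⟩, mem_univ _⟩
  exact (FF_cont h m).comp h3 h3'

theorem mark_aux (hA : S_AVG) (h : IsSol 1 T u p) (m : ℕ) (hr : 0 < r) (hs : r ^ 2 < s)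
    (hsT : s < T) (hX : Flow U (s - r ^ 2) s X) :
    (∀ x, IntegrableOn (fun t => FF m (u (s + r ^ 2 * t)) (X (s + r ^ 2 * t) x)) (Ioo (-1) 0)) ∧
    Continuous (fun x => ∫ t in Ioo (-1 : ℝ) 0, FF m (u (s + r ^ 2 * t)) (X (s + r ^ 2 * t) x)) ∧
    Per (fun x => ∫ t in Ioo (-1 : ℝ) 0, FF m (u (s + r ^ 2 * t)) (X (s + r ^ 2 * t) x)) ∧
    ∫ x in cube, (∫ t in Ioo (-1 : ℝ) 0, FF m (u (s + r ^ 2 * t)) (X (s + r ^ 2 * t) x))
      = (m + 1) / 16 ^ m * ((r ^ 2)⁻¹ * ∫ t in Ioo (s - r ^ 2) s, enstrophy (u t)) := by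
  have hr2 : 0 < r ^ 2 := by positivity
  have hsub : Icc (s - r ^ 2) s ⊆ Ioo 0 T := fun t ht => ⟨by linarith [ht.1], by linarith [ht.2]⟩
  have hsubI : Icc (s - r ^ 2) s ⊆ Ico 0 T := hsub.trans Ioo_subset_Ico_self
  have hf := joint h m hr hs hsT hX
  have hIoo : Ioo (-1 : ℝ) 0 ⊆ Icc (-1) 0 := Ioo_subset_Icc_self
  refine ⟨?_, ?_, ?_, ?_⟩
  · intro x
    have h2 : ContinuousOn (fun t : ℝ => ((x, t) : V × ℝ)) (Icc (-1) 0) :=
      (continuous_const.prodMk continuous_id).continuousOn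
    have h3 : MapsTo (fun t : ℝ => ((x, t) : V × ℝ)) (Icc (-1) 0) (univ ×ˢ Icc (-1) 0) :=
      fun t ht => ⟨mem_univ _, ht⟩
    have h1 : ContinuousOn (fun t : ℝ => FF m (u (s + r ^ 2 * t)) (X (s + r ^ 2 * t) x))
        (Icc (-1) 0) := hf.comp h2 h3
    exact (h1.integrableOn_compact isCompact_Icc).mono_set hIoo
  · rw [← continuousOn_univ]
    exact cont_param (F := fun (x : V) (t : ℝ) => FF m (u (s + r ^ 2 * t)) (X (s + r ^ 2 * t) x))
      isOpen_univ measurableSet_Ioo hIoo isCompact_Icc hf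
  · intro i x
    apply setIntegral_congr_fun measurableSet_Ioo
    intro t ht
    have h1 := time_mem (s := s) hr (hIoo ht)
    show FF m (u (s + r ^ 2 * t)) (X (s + r ^ 2 * t) (x + Pi.single i 1)) =
      FF m (u (s + r ^ 2 * t)) (X (s + r ^ 2 * t) x)
    rw [hX.per _ h1]
    exact FF_per hA (spv h (hsubI h1)) m i _
  · rw [integral_integral_swap]
    · have h1 : ∀ t ∈ Ioo (-1 : ℝ) 0,
          ∫ x in cube, FF m (u (s + r ^ 2 * t)) (X (s + r ^ 2 * t) x) =
            (m + 1) / 16 ^ m * enstrophy (u (s + r ^ 2 * t)) := by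
        intro t ht
        have h2 := time_mem (s := s) hr (hIoo ht)
        have h3 := spv h (hsubI h2)
        have hc : Continuous (fun x => FF m (u (s + r ^ 2 * t)) x) := by
          rw [← continuousOn_univ]
          have h4 : ContinuousOn (fun x : V => ((s + r ^ 2 * t, x) : ℝ × V)) univ :=
            (continuous_const.prodMk continuous_id).continuousOn
          have h5 : MapsTo (fun x : V => ((s + r ^ 2 * t, x) : ℝ × V)) univ (Ioo 0 T ×ˢ univ) :=
            fun x _ => ⟨hsub h2, mem_univ _⟩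
          exact (FF_cont h m).comp h4 h5
        rw [hX.meas _ h2 (fun x => FF m (u (s + r ^ 2 * t)) x) hc (FF_per hA h3 m)]
        exact FF_int hA h3 m
      rw [setIntegral_congr_fun measurableSet_Ioo h1, integral_const_mul]
      congr 1
      rw [← integral_Ioc_eq_integral_Ioo, ← integral_Ioc_eq_integral_Ioo,
        ← intervalIntegral.integral_of_le (by norm_num),
        ← intervalIntegral.integral_of_le (by linarith)]
      have h6 := intervalIntegral.integral_comp_add_mul (a := -1) (b := 0)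
        (fun t => enstrophy (u t)) hr2.ne' s
      rw [h6, smul_eq_mul]
      congr 2 <;> ring
    · have h1 : IntegrableOn (fun z : V × ℝ =>
          FF m (u (s + r ^ 2 * z.2)) (X (s + r ^ 2 * z.2) z.1)) (cube ×ˢ Ioo (-1) 0)
          (volume.prod volume) :=
        ((hf.mono (prod_mono (subset_univ _) subset_rfl)).integrableOn_compact
          (isCompact_Icc.prod isCompact_Icc)).mono_set (prod_mono subset_rfl hIoo)
      rw [Measure.prod_restrict]
      exact h1

end main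

theorem rr_pos (m : ℕ) : 0 < rr m := by unfold rr; positivity

theorem rr_sq (m : ℕ) : (rr m ^ 2)⁻¹ = 4 ^ m := by
  unfold rr
  rw [← pow_mul, mul_comm m 2, pow_mul, ← inv_pow]
  norm_num

theorem t_MARK (hA : S_AVG) : S_MARK := by
  intro T u p hsol m s hs hsT X hX
  obtain ⟨h1, h2, h3, h4⟩ := mark_aux hA hsol m (rr_pos m) hs hsT hX
  refine ⟨h1, h2, h3, ?_⟩
  rw [h4, rr_sq, ← mul_assoc]
  congr 1
  rw [div_mul_eq_mul_div, div_eq_div_iff (by positivity) (by positivity), mul_assoc, ← mul_pow]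
  norm_num

end Pool.Agent.W120.MD
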