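import Pool.Agent.W120.MD.Lat

/-!
# MD-PACK: packing of balls in the torus
-/

set_option autoImplicit false

open MeasureTheory Set Metric
open scoped ENNReal NNReal Pointwise

namespace Pool.Agent.W120.MD

open H459R3.NS W221.NS

theorem volume_ball' (x : V) {ρ : ℝ} (hρ : 0 < ρ) :
    volume (ball x ρ) = ENNReal.ofReal ((2 * ρ) ^ 3) := by
  rw [Real.volume_pi_ball x hρ]
  simp

theorem t_PACK : S_PACK := by
  classical
  intro H ε ρ S hH hper hH0 hρ hρ2 hsep hε
  rw [setIntegral_DD]
  -- the union of the balls
  set U : Set V := ⋃ x ∈ S, ball x ρ with hU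
  have hUm : MeasurableSet U := Finset.measurableSet_biUnion _ fun x _ => measurableSet_ball
  have hdisj : ∀ x ∈ S, ∀ y ∈ S, x ≠ y → Disjoint (ball x ρ) (ball y ρ) := by
    intro x hx y hy hxy
    apply ball_disjoint_ball
    have := hsep x hx y hy hxy 0
    rw [dist_eq_norm]
    have e : x - y - (fun i => (((0 : K3) i : ℤ) : ℝ)) = x - y := by
      funext i; simp
    rw [e] at this
    linarith
  -- the function as an extended nonnegative function
  let h : V → ℝ≥0∞ := fun x => ENNReal.ofReal (H x)
  have hhm : Measurable h := hH.measurable.ennreal_ofReal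
  have hhper : ∀ (g : Gm) (x : V), h (g +ᵥ x) = h x := fun g x => by
    simp only [h]; rw [per_vadd hper]
  -- upper bound
  have hup : ∫⁻ x in U, h x ≤ ∫⁻ x in DD, h x := by
    rw [fd.setLIntegral_eq_tsum' h U]
    have h1 : ∀ g : Gm, ∫⁻ x in (g +ᵥ U) ∩ DD, h (-g +ᵥ x) = ∫⁻ x in (g +ᵥ U) ∩ DD, h x := by
      intro g
      simp only [hhper]
    simp only [h1]
    rw [← lintegral_iUnion]
    · exact lintegral_mono_set (iUnion_subset fun g => inter_subset_right)
    · intro g
      exact (hUm.const_vadd g).inter DD_meas
    · intro g g' hgg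
      rw [Function.onFun, Set.disjoint_left]
      rintro z ⟨hz, -⟩ ⟨hz', -⟩
      rw [mem_vadd_set] at hz hz'
      obtain ⟨a, ha, rfl⟩ := hz
      obtain ⟨b, hb, hab⟩ := hz'
      simp only [hU, mem_iUnion, exists_prop] at ha hb
      obtain ⟨x, hx, hax⟩ := ha
      obtain ⟨y, hy, hby⟩ := hb
      obtain ⟨k, hk⟩ := mem_Gm.1 (g' - g).2
      have hne : k ≠ 0 := by
        rintro rfl
        apply hgg
        have : (g' - g : Gm) = 0 := by
          apply Subtype.ext
          rw [hk]
          funext i; simp
        exact (sub_eq_zero.1 this).symm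
      have hab' : a - b = fun i => (k i : ℝ) := by
        rw [← hk]
        simp only [vadd_eq] at hab
        have : (g' : V) + b = (g : V) + a := hab
        rw [AddSubgroup.coe_sub]
        rw [sub_eq_sub_iff_add_eq_add, add_comm a, ← this, add_comm]
      rw [mem_ball, dist_eq_norm] at hax hby
      have hlt : ‖x - y - fun i => (k i : ℝ)‖ < 2 * ρ := by
        rw [← hab']
        have e : x - y - (a - b) = (b - y) - (a - x) := by abel
        rw [e]
        calc ‖(b - y) - (a - x)‖ ≤ ‖b - y‖ + ‖a - x‖ := norm_sub_le _ _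
          _ < 2 * ρ := by linarith
      by_cases hxy : x = y
      · subst hxy
        rw [sub_self, zero_sub, norm_neg] at hlt
        apply hne
        funext i
        have h2 := norm_le_pi_norm (fun i => (k i : ℝ)) i
        have h3 : ‖((k i : ℤ) : ℝ)‖ < 1 := by
          refine lt_of_le_of_lt h2 ?_
          linarith
        rw [Real.norm_eq_abs, ← Int.cast_abs] at h3
        have h4 : |k i| < 1 := by exact_mod_cast h3
        have h5 := Int.abs_lt_one_iff.1 h4
        simpa using h5
      · have := hsep x hx y hy hxy k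
        linarith
  -- integrability
  have hint : ∀ x, IntegrableOn H (ball x ρ) := fun x =>
    (hH.continuousOn.integrableOn_compact (isCompact_closedBall x ρ)).mono_set ball_subset_closedBall
  have hUint : IntegrableOn H U := by
    rw [hU, integrableOn_finset_iUnion]
    exact fun x _ => hint x
  have hDint : IntegrableOn H DD := by
    have := integrableOn_cube hH
    exact this.congr_set_ae DD_ae
  -- lower bound
  have hlow : S.card * (2 * ρ) ^ 3 * ε ≤ ∫ x in U, H x := by
    rw [hU, integral_biUnion_finset S (fun x _ => measurableSet_ball)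
      (fun x hx y hy hxy => hdisj x hx y hy hxy) (fun x _ => hint x)]
    have h1 : ∀ x ∈ S, (2 * ρ) ^ 3 * ε ≤ ∫ z in ball x ρ, H z := by
      intro x hx
      have h2 : ∫ z in ball x ρ, ε = (2 * ρ) ^ 3 * ε := by
        rw [setIntegral_const, smul_eq_mul, measureReal_def, volume_ball' x hρ,
          ENNReal.toReal_ofReal (by positivity)]
      rw [← h2]
      apply setIntegral_mono_on _ (hint x) measurableSet_ball (hε x hx)
      rw [integrableOn_const_iff]
      right
      exact measure_ball_lt_top
    calc S.card * (2 * ρ) ^ 3 * ε = ∑ x ∈ S, (2 * ρ) ^ 3 * ε := by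
          rw [Finset.sum_const, nsmul_eq_mul]; ring
      _ ≤ _ := Finset.sum_le_sum h1
  refine hlow.trans ?_
  rw [integral_eq_lintegral_of_nonneg_ae (Filter.Eventually.of_forall hH0)
      hH.aestronglyMeasurable.restrict,
    integral_eq_lintegral_of_nonneg_ae (Filter.Eventually.of_forall hH0)
      hH.aestronglyMeasurable.restrict]
  apply ENNReal.toReal_mono _ hup
  exact (hDint.lintegral_lt_top).ne

end Pool.Agent.W120.MD
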