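import Pool.Agent.W221.NS.Stm
import Pool.Agent.H459R3.NS.Sol

/-!
# MD-SLICE: information at one time in the moving frame
-/

set_option autoImplicit false

open MeasureTheory Set Metric
open scoped ContDiff

namespace Pool.Agent.W120.MD

open H459R3.NS W221.NS

theorem slice_smooth {F : Type*} [NormedAddCommGroup F] [NormedSpace ℝ F] {f : ℝ → V → F}
    {I : Set ℝ} (h : ContDiffOn ℝ ∞ (fun z : ℝ × V => f z.1 z.2) (I ×ˢ univ)) {t : ℝ}
    (ht : t ∈ I) : ContDiff ℝ ∞ (f t) := by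
  have h1 : ContDiff ℝ ∞ (fun x : V => (t, x)) := contDiff_const.prodMk contDiff_id
  rw [← contDiffOn_univ] at h1 ⊢
  exact h.comp h1 (fun x _ => ⟨ht, trivial⟩)

theorem gsq_nonneg (v : V → V) (x : V) : 0 ≤ gsq v x :=
  Finset.sum_nonneg fun _ _ => Finset.sum_nonneg fun _ _ => sq_nonneg _

theorem enstrophy_nonneg (v : V → V) : 0 ≤ enstrophy v :=
  Finset.sum_nonneg fun _ _ => Finset.sum_nonneg fun _ _ => integral_nonneg fun _ => sq_nonneg _

theorem avg_nonneg (u : V → V) (x : V) {ρ : ℝ} (hρ : 0 ≤ ρ) : 0 ≤ avg u x ρ :=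
  div_nonneg (integral_nonneg fun _ => gsq_nonneg _ _) (by positivity)

theorem FF_nonneg (m : ℕ) (u : V → V) (x : V) : 0 ≤ FF m u x := by
  unfold FF
  have h1 : 0 ≤ ∑ k ∈ Finset.range m, avg u x (2 ^ k / 2 ^ m) :=
    Finset.sum_nonneg fun _ _ => avg_nonneg _ _ (by positivity)
  have h2 := enstrophy_nonneg u
  positivity

theorem t_SLICE (h1 : S_FRAME) (h2 : S_FAR) (h3 : S_FORCE) (h4 : S_DIV) : S_SLICE := by
  obtain ⟨CF, hCF, hfar⟩ := h2
  obtain ⟨C3, hC3, hforce⟩ := h3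
  refine ⟨CF * (1 + C3) ^ 2, by positivity, ?_⟩
  intro T u p hsol m s hm hs hsT X hX hXd t ht
  have hr : 0 < rr m := by unfold rr; positivity
  have hloc := h1 T u p hsol (rr m) s hr hs hsT X hX hXd
  set τ := s + rr m ^ 2 * t with hτ
  have hτm : τ ∈ Ioo 0 T := by
    have hr2 : 0 < rr m ^ 2 := by positivity
    constructor
    · have : rr m ^ 2 * (-1) < rr m ^ 2 * t := mul_lt_mul_of_pos_left ht.1 hr2
      rw [hτ]; linarith
    · have : rr m ^ 2 * t < 0 := mul_neg_of_pos_of_neg hr2 ht.2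
      rw [hτ]; linarith
  have hτI : τ ∈ Ico 0 T := ⟨hτm.1.le, hτm.2⟩
  have hspv : SPV (u τ) := ⟨slice_smooth hsol.smooth_u hτI, hsol.per_u τ hτI⟩
  obtain ⟨P, hP, heq, hnP, hhess, hB⟩ := hfar (u τ) (p τ) hspv (hsol.sp_p hτI)
    (hsol.divfree τ hτI) (h4 T u p hsol τ hτm) m hm (X τ)
    (fun i => deriv (fun τ => X τ i) τ) (fun i => rr m ^ 3 * deriv (deriv (fun τ => X τ i)) τ)
    (frv (rr m) s X u t) (frq (rr m) s X p t) (fun z i => rfl) (fun z => rfl)
    (hloc.mean t ht)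
  set F := FF m (u τ) (X τ) with hF
  have hF0 : 0 ≤ F := FF_nonneg _ _ _
  have hG0 : 0 ≤ CF * F := by positivity
  have hD1 : 1 ≤ (1 + C3) ^ 2 := one_le_pow₀ (by linarith)
  have hG : CF * F ≤ CF * (1 + C3) ^ 2 * F := by
    nlinarith [mul_nonneg hG0 (sub_nonneg.2 hD1)]
  refine ⟨P, ?_⟩
  constructor
  · exact slice_smooth hloc.smooth_v ht
  · exact slice_smooth hloc.smooth_q ht
  · exact hP
  · exact hloc.divfree t ht
  · exact hloc.mean t ht
  · exact hB.trans hG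
  · exact heq
  · exact hnP.trans (pow_le_pow_left₀ hG0 hG 2)
  · exact fun x hx i j => (hhess x hx i j).trans hG
  · intro i
    refine (hforce _ _ hloc t ht i).trans ?_
    have e1 : √(B2 0 2 (frv (rr m) s X u t)) ≤ √(CF * F) := Real.sqrt_le_sqrt hB
    have e2 : √(CF * (1 + C3) ^ 2 * F) = (1 + C3) * √(CF * F) := by
      rw [show CF * (1 + C3) ^ 2 * F = (1 + C3) ^ 2 * (CF * F) by ring,
        Real.sqrt_mul (by positivity), Real.sqrt_sq (by positivity)]
    rw [e2]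
    have e3 : 0 ≤ √(CF * F) := Real.sqrt_nonneg _
    have e4 : C3 * (√(B2 0 2 (frv (rr m) s X u t)) + B2 0 2 (frv (rr m) s X u t)) ≤
        C3 * (√(CF * F) + CF * F) := mul_le_mul_of_nonneg_left (add_le_add e1 hB) hC3.le
    refine e4.trans ?_
    have e5 : 0 ≤ (1 + C3 + C3 ^ 2) * (CF * F) := by positivity
    nlinarith

end Pool.Agent.W120.MD
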